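import Pool.Agent.W31.LD.Defs

set_option autoImplicit false

namespace Pool.Agent.W356.LD

open W31LD

theorem mu_le (B i : ℕ) (hB : 3 ≤ B) : mu B i ≤ 1 / 240 := by
  unfold mu
  have hB' : (3 : ℝ) ≤ B := by exact_mod_cast hB
  have hi : (0 : ℝ) ≤ i := Nat.cast_nonneg i
  rw [div_le_div_iff₀ (by positivity) (by norm_num)]
  have h1 : Real.log B ≤ (B : ℝ) - 1 := Real.log_le_sub_one_of_pos (by linarith)
  linarith

theorem one_le_log (B : ℕ) (hB : 3 ≤ B) : 1 ≤ Real.log B := by
  have hB' : (3 : ℝ) ≤ B := by exact_mod_cast hB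
  rw [Real.le_log_iff_exp_le (by linarith)]
  have := Real.exp_one_lt_d9
  linarith

theorem mu_pos (B i : ℕ) (hB : 3 ≤ B) : 0 < mu B i := by
  unfold mu
  have hB' : (3 : ℝ) ≤ B := by exact_mod_cast hB
  have hi : (0 : ℝ) ≤ i := Nat.cast_nonneg i
  have := one_le_log B hB
  exact div_pos (by linarith) (by positivity)

theorem mu_anti (B i : ℕ) (hB : 3 ≤ B) : mu B (i + 1) ≤ mu B i := by
  unfold mu
  have hB' : (3 : ℝ) ≤ B := by exact_mod_cast hB
  have hi : (0 : ℝ) ≤ i := Nat.cast_nonneg i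
  have := one_le_log B hB
  apply div_le_div_of_nonneg_left (by linarith) (by positivity)
  push_cast
  linarith

theorem mu_lower (B i : ℕ) (hB : 3 ≤ B) : 1 ≤ 240 * ((i : ℝ) + B) * mu B i := by
  unfold mu
  have hB' : (3 : ℝ) ≤ B := by exact_mod_cast hB
  have hi : (0 : ℝ) ≤ i := Nat.cast_nonneg i
  have := one_le_log B hB
  have h0 : 240 * ((i : ℝ) + B) ≠ 0 := by positivity
  rw [mul_div_cancel₀ _ h0]
  exact this

theorem exp_small : Real.exp (1 / 240) ≤ 11 / 10 := by
  have h1 : (1 : ℝ) / 240 ≤ Real.log (11 / 10) := by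
    have := Real.one_sub_inv_le_log_of_pos (show (0 : ℝ) < 11 / 10 by norm_num)
    norm_num at this ⊢
    linarith
  calc Real.exp (1 / 240) ≤ Real.exp (Real.log (11 / 10)) := Real.exp_le_exp.mpr h1
    _ = 11 / 10 := Real.exp_log (by norm_num)

theorem done : W31LD.T_Num_comb := by
  refine ⟨3, fun B hB i _ s r hr hN => ?_⟩
  have h1 := mu_le B i hB
  have h2 := mu_pos B i hB
  have h3 := mu_le B (i + 1) hB
  have h4 := mu_pos B (i + 1) hB
  have h5 := mu_anti B i hB
  have h6 := mu_lower B i hB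
  have hth : th B i r - th B i (r + 1) = 2 * mu B i * (3 / 4) ^ r := by
    unfold th
    rw [pow_succ]
    ring
  rw [hth]
  have hg : gg B (i + 1) (s + (r + 1)) * 2 ^ (s + (r + 1)) =
      2 ^ s * 2 ^ r * Real.exp (-(mu B (i + 1) * ((s : ℝ) + r - 1))) := by
    unfold gg
    rw [if_neg (by omega)]
    push_cast
    have : (s : ℝ) + (r + 1) - 2 = (s : ℝ) + r - 1 := by ring
    rw [this, pow_add, pow_succ]
    ring
  rw [hg]
  set p := mu B i with hp
  set q := mu B (i + 1) with hq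
  have hpow : (3 / 4 : ℝ) ^ r * 2 ^ r = (3 / 2) ^ r := by
    rw [← mul_pow]
    norm_num
  have hrhs : 2 * p * (3 / 4) ^ r * (2 ^ s * 2 ^ r * Real.exp (-(q * ((s : ℝ) + r - 1)))) =
      2 * p * 2 ^ s * ((3 / 2) ^ r * Real.exp (-(q * ((s : ℝ) + r - 1)))) := by
    rw [← hpow]
    ring
  rw [hrhs]
  have hexpq : Real.exp q ≤ 11 / 10 := (Real.exp_le_exp.mpr h3).trans exp_small
  have hexpp : Real.exp p ≤ 11 / 10 := (Real.exp_le_exp.mpr h1).trans exp_small
  rcases Nat.eq_zero_or_pos s with hs | hs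
  · subst hs
    have hg0 : gg B i 0 = 1 := by unfold gg; rw [if_pos rfl]
    have hg1 : gg B i (0 + 1) = 1 / 2 * Real.exp p := by
      unfold gg
      rw [if_neg (by omega)]
      push_cast
      congr 2
      ring
    rw [hg0, hg1]
    have hl : 2 * (1 * 2 ^ 0) - 1 / 2 * Real.exp p * 2 ^ (0 + 1) ≤ (1 : ℝ) := by
      have := Real.add_one_le_exp p
      norm_num
      linarith
    refine hl.trans ?_
    -- the right side is huge
    have hr1 : (60 : ℝ) * ((i : ℝ) + B) ≤ r := by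
      have : 60 * (i + B) ≤ r := by omega
      exact_mod_cast this
    have hqr : Real.exp (q * r) ≤ (11 / 10) ^ r := by
      rw [mul_comm, Real.exp_nat_mul]
      exact pow_le_pow_left₀ (Real.exp_pos _).le hexpq r
    have h7 : Real.exp (-(q * r)) ≤ Real.exp (-(q * (((0 : ℕ) : ℝ) + r - 1))) := by
      apply Real.exp_le_exp.mpr
      push_cast
      nlinarith
    have h8 : (1 : ℝ) ≤ Real.exp (-(q * r)) * (11 / 10) ^ r := by
      calc (1 : ℝ) = Real.exp (-(q * r)) * Real.exp (q * r) := by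
            rw [← Real.exp_add]; simp
        _ ≤ _ := mul_le_mul_of_nonneg_left hqr (Real.exp_pos _).le
    have h9 : (13 / 10 : ℝ) ^ r ≤ (3 / 2) ^ r * Real.exp (-(q * (((0 : ℕ) : ℝ) + r - 1))) := by
      calc (13 / 10 : ℝ) ^ r ≤ (13 / 10) ^ r * (Real.exp (-(q * r)) * (11 / 10) ^ r) :=
            le_mul_of_one_le_right (by positivity) h8
        _ = ((13 / 10) * (11 / 10)) ^ r * Real.exp (-(q * r)) := by rw [mul_pow]; ring
        _ ≤ (3 / 2) ^ r * Real.exp (-(q * r)) := by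
            apply mul_le_mul_of_nonneg_right _ (Real.exp_pos _).le
            exact pow_le_pow_left₀ (by norm_num) (by norm_num) r
        _ ≤ _ := mul_le_mul_of_nonneg_left h7 (by positivity)
    obtain ⟨k, hk⟩ : ∃ k, r = 20 + k := ⟨r - 20, by omega⟩
    have h10 : (100 : ℝ) * (1 + k * (3 / 10)) ≤ (13 / 10) ^ r := by
      rw [hk, pow_add]
      have hb := one_add_mul_le_pow (show (-2 : ℝ) ≤ 3 / 10 by norm_num) k
      have hc : (100 : ℝ) ≤ (13 / 10) ^ 20 := by norm_num
      have hd : (1 + (3 / 10 : ℝ)) = 13 / 10 := by norm_num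
      rw [hd] at hb
      exact mul_le_mul hc hb (by positivity) (by positivity)
    have hk' : (r : ℝ) = 20 + k := by rw [hk]; push_cast; ring
    have hB' : (3 : ℝ) ≤ B := by exact_mod_cast hB
    have hi0 : (0 : ℝ) ≤ i := Nat.cast_nonneg i
    have h11 : 120 * ((i : ℝ) + B) ≤ (3 / 2) ^ r * Real.exp (-(q * (((0 : ℕ) : ℝ) + r - 1))) := by
      linarith
    calc (1 : ℝ) ≤ 240 * ((i : ℝ) + B) * p := h6
      _ = 2 * p * 2 ^ 0 * (120 * ((i : ℝ) + B)) := by ring
      _ ≤ _ := mul_le_mul_of_nonneg_left h11 (by positivity)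
  · have hs1 : (1 : ℝ) ≤ s := by exact_mod_cast hs
    have hgs : gg B i s = 1 / 2 * Real.exp (-(p * ((s : ℝ) - 2))) := by
      unfold gg
      rw [if_neg (by omega)]
    have hgs1 : gg B i (s + 1) = 1 / 2 * (Real.exp (-(p * ((s : ℝ) - 2))) * Real.exp (-p)) := by
      unfold gg
      rw [if_neg (by omega), ← Real.exp_add]
      push_cast
      congr 2
      ring
    rw [hgs, hgs1]
    have he : 1 - Real.exp (-p) ≤ p := by
      have := Real.add_one_le_exp (-p)
      linarith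
    have hE := Real.exp_pos (-(p * ((s : ℝ) - 2)))
    have hkey : Real.exp (-(p * ((s : ℝ) - 2))) ≤ 2 * ((3 / 2) ^ r * Real.exp (-(q * ((s : ℝ) + r - 1)))) := by
      have h7 : -(p * ((s : ℝ) - 2)) ≤ p + q * r + -(q * ((s : ℝ) + r - 1)) := by
        nlinarith
      have h8 : Real.exp (p + q * r) ≤ 2 * (3 / 2) ^ r := by
        rw [Real.exp_add]
        have hqr : Real.exp (q * r) ≤ (3 / 2) ^ r := by
          rw [mul_comm, Real.exp_nat_mul]
          exact pow_le_pow_left₀ (Real.exp_pos _).le (by linarith) r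
        exact mul_le_mul (by linarith) hqr (Real.exp_pos _).le (by norm_num)
      calc Real.exp (-(p * ((s : ℝ) - 2))) ≤ Real.exp (p + q * r + -(q * ((s : ℝ) + r - 1))) :=
            Real.exp_le_exp.mpr h7
        _ = Real.exp (p + q * r) * Real.exp (-(q * ((s : ℝ) + r - 1))) := Real.exp_add _ _
        _ ≤ 2 * (3 / 2) ^ r * Real.exp (-(q * ((s : ℝ) + r - 1))) :=
            mul_le_mul_of_nonneg_right h8 (Real.exp_pos _).le
        _ = _ := by ring
    have h2s : (0 : ℝ) < 2 ^ s := by positivity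
    calc 2 * (1 / 2 * Real.exp (-(p * ((s : ℝ) - 2))) * 2 ^ s) -
          1 / 2 * (Real.exp (-(p * ((s : ℝ) - 2))) * Real.exp (-p)) * 2 ^ (s + 1)
        = 2 ^ s * Real.exp (-(p * ((s : ℝ) - 2))) * (1 - Real.exp (-p)) := by
          rw [pow_succ]; ring
      _ ≤ 2 ^ s * Real.exp (-(p * ((s : ℝ) - 2))) * p :=
          mul_le_mul_of_nonneg_left he (by positivity)
      _ = p * 2 ^ s * Real.exp (-(p * ((s : ℝ) - 2))) := by ring
      _ ≤ p * 2 ^ s * (2 * ((3 / 2) ^ r * Real.exp (-(q * ((s : ℝ) + r - 1))))) :=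
          mul_le_mul_of_nonneg_left hkey (by positivity)
      _ = _ := by ring

end Pool.Agent.W356.LD
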